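import Pool.Agent.Helper68.SG2.GoalsT
import Pool.Agent.Helper23.SGT.NQW

/-!
# MP_a41896_nt, project SG stage 2, packet SH2-NQWT: weighted degrees
-/

set_option autoImplicit false

open MvPolynomial

namespace Pool.Agent.Helper41.SG2

open WeierstrassCurve
open Pool.Agent.Helper29.BL Pool.Agent.Helper92.Ru Pool.Agent.Helper42.SG Pool.Agent.Helper65.SG
open Pool.Agent.Helper23.SGT Pool.Agent.Helper68.SG2

noncomputable section

/-- one factor of the product -/
theorem mainT (K : Type) [Field K] (T : ℕ → Bool) (W : ℕ → Affine K) (n M δ : ℕ) (e : ℕ → ℕ)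
    (c : Idx n M δ e → K) (ε : Fin (2 * n) → ℤˣ) (h : Fin (2 * n + 2)) :
    Wd h (if h.val < 2 * n then (2 * M + 1) * 4 ^ e (h.val / 2) else 2 * n * M + δ)
      (PeT T W n M δ e c ε) := by
  classical
  unfold PeT P0T PT
  refine Wd.sum _ _ fun α _ => ?_
  -- the block of the variable `h'`
  have hblock : ∀ h' : Fin (2 * n), Wd h
      ((2 * M + 1) * 4 ^ e (h'.val / 2) * dl h h'.val + 2 * M * dl h (2 * n + h'.val % 2))
      (blk T (mapW (GR K n) W) n M e (fun _ => false) (gX K n) (sgn n ε (gP K n)) h'.val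
        (α.1 h').1.val (α.1 h').2.val) := by
    intro h'
    have h1 : (α.1 h').1.val + 1 ≤ 4 ^ e (h'.val / 2) := (α.1 h').1.isLt
    have h2 : (α.1 h').2.val ≤ M := Nat.lt_succ_iff.1 (α.1 h').2.isLt
    unfold blk
    by_cases hT : T (h'.val % 2) = true
    · rw [if_pos hT, if_neg (by simp)]
      refine (((Wd.gX (K := K) h'.val).pow _).mul
        ((Wd.gX (K := K) (2 * n + h'.val % 2)).pow _)).mono ?_
      refine Nat.add_le_add (Nat.mul_le_mul_right _ ?_) (Nat.mul_le_mul_right _ (by omega))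
      calc 4 ^ e (h'.val / 2) * (α.1 h').2.val + (α.1 h').1.val
          ≤ 4 ^ e (h'.val / 2) * M + 4 ^ e (h'.val / 2) :=
            Nat.add_le_add (Nat.mul_le_mul_left _ h2) (by omega)
        _ ≤ (2 * M + 1) * 4 ^ e (h'.val / 2) := by nlinarith [Nat.zero_le (4 ^ e (h'.val / 2) * M)]
    · rw [if_neg hT]
      have hlaw := Wd_law (h := h) (W := mapW (GR K n) W (h'.val % 2)) (Cb_map _)
        (Wd.gX (K := K) h'.val) (Wd.gX (K := K) (2 * n + h'.val % 2))
        (((Wd.sgn (K := K) ε h'.val).mul (Wd.sgn (K := K) ε (2 * n + h'.val % 2))))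
        (e (h'.val / 2))
      obtain ⟨hl1, hl2⟩ := hlaw
      refine ((Wd.gX h'.val).pow _ |>.mul ((hl1.pow _).mul (hl2.pow _))).mono ?_
      have h3 : (M - (α.1 h').2.val) + (α.1 h').2.val = M := Nat.sub_add_cancel h2
      rw [← add_mul, h3]
      have h4 : (α.1 h').1.val * dl h h'.val ≤ 4 ^ e (h'.val / 2) * dl h h'.val :=
        Nat.mul_le_mul_right _ (by omega)
      calc (α.1 h').1.val * dl h h'.val +
            M * (2 * 4 ^ e (h'.val / 2) * dl h h'.val + 2 * dl h (2 * n + h'.val % 2))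
          ≤ 4 ^ e (h'.val / 2) * dl h h'.val +
            M * (2 * 4 ^ e (h'.val / 2) * dl h h'.val + 2 * dl h (2 * n + h'.val % 2)) :=
            Nat.add_le_add_right h4 _
        _ = _ := by ring
  have hprod := Wd.prod Finset.univ _ _ (fun h' _ => hblock h')
  have hlast : Wd h (∑ i : Fin 2, (α.2 i).val * dl h (2 * n + i.val))
      (∏ i : Fin 2, gX K n (2 * n + i.val) ^ (α.2 i).val) :=
    Wd.prod Finset.univ _ _ (fun i _ => (Wd.gX _).pow _)
  refine (((Wd.algebraMap (c α)).mul hprod).mul hlast).mono ?_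
  rw [zero_add, Finset.sum_add_distrib]
  by_cases hh : h.val < 2 * n
  · rw [if_pos hh]
    have h1 : ∑ h' : Fin (2 * n), (2 * M + 1) * 4 ^ e (h'.val / 2) * dl h h'.val =
        (2 * M + 1) * 4 ^ e (h.val / 2) := by
      rw [Finset.sum_eq_single (⟨h.val, hh⟩ : Fin (2 * n))]
      · simp [dl]
      · intro b _ hb
        have h2 : ¬ (b.val = h.val) := fun h3 => hb (Fin.ext h3)
        simp [dl, h2]
      · intro h3
        exact absurd (Finset.mem_univ _) h3
    have h2 : ∑ h' : Fin (2 * n), 2 * M * dl h (2 * n + h'.val % 2) = 0 := by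
      refine Finset.sum_eq_zero fun b _ => ?_
      have h3 : ¬ (2 * n + b.val % 2 = h.val) := by omega
      simp [dl, h3]
    have h3 : ∑ i : Fin 2, (α.2 i).val * dl h (2 * n + i.val) = 0 := by
      refine Finset.sum_eq_zero fun b _ => ?_
      have h3 : ¬ (2 * n + b.val = h.val) := by omega
      simp [dl, h3]
    rw [h1, h2, h3]
    omega
  · rw [if_neg hh]
    have hlt := h.isLt
    obtain ⟨i, hi⟩ := Nat.exists_eq_add_of_le (not_lt.1 hh)
    have hi2 : i < 2 := by omega
    have h1 : ∑ h' : Fin (2 * n), (2 * M + 1) * 4 ^ e (h'.val / 2) * dl h h'.val = 0 := by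
      refine Finset.sum_eq_zero fun b _ => ?_
      have h3 : ¬ (b.val = h.val) := by have := b.isLt; omega
      simp [dl, h3]
    have h2 : ∑ h' : Fin (2 * n), 2 * M * dl h (2 * n + h'.val % 2) = 2 * n * M := by
      rw [← Finset.mul_sum]
      have h3 : ∑ h' : Fin (2 * n), dl h (2 * n + h'.val % 2) = n := by
        refine Eq.trans (Finset.sum_congr rfl fun b _ => ?_) (card_mod n i hi2)
        unfold dl
        rw [hi]
      rw [h3]
      ring
    have h3 : ∑ i : Fin 2, (α.2 i).val * dl h (2 * n + i.val) ≤ δ := by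
      rw [Finset.sum_eq_single (⟨i, hi2⟩ : Fin 2)]
      · have h4 : dl h (2 * n + i) = 1 := by simp [dl, hi]
        rw [h4, mul_one]
        exact (α.2 _).isLt.le
      · intro b _ hb
        have h2 : ¬ (2 * n + b.val = h.val) := fun h3 => hb (Fin.ext (by
          show b.val = i
          omega))
        simp [dl, h2]
      · intro h3
        exact absurd (Finset.mem_univ _) h3
    rw [h1, h2]
    omega

theorem mainQT (K : Type) [Field K] (T : ℕ → Bool) (W : ℕ → Affine K) (n M δ : ℕ) (e : ℕ → ℕ)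
    (c : Idx n M δ e → K) (h : Fin (2 * n + 2)) :
    Wd h (ddM n M δ e h.val) (QhT T W n M δ e c) := by
  unfold QhT
  refine (Wd.prod Finset.univ _ _ (fun ε _ => mainT K T W n M δ e c ε h)).mono (le_of_eq ?_)
  rw [Finset.sum_const, Finset.card_univ, Fintype.card_fun, Fintype.card_fin, Fintype.card_units_int,
    pow_mul, smul_eq_mul]
  unfold ddM
  norm_num

/-- **NQWT.** -/
theorem t_NQWT : Pool.Agent.Helper68.SG2.NQWT :=
  fun K _ T W n M δ e c h => mainQT K T W n M δ e c h

end

end Pool.Agent.Helper41.SG2
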